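import Pool.Agent.TH924.PG.Main

set_option autoImplicit false

/-!
Algebraic parameters: at most `(a p + W) / m` points of the parameter line over an algebraic
closure of the residue field give zero `p`-curvature.
-/

namespace Pool.Agent.TH924.PG

open Polynomial

variable {R O : Type*} [CommRing R] [CommRing O] [Algebra R O] {n : ℕ}

/-- The universal member over the parameter line. -/
noncomputable def connX (δ : Derivation R O O) (A : Matrix (Fin n) (Fin n) O[X])
    (v : Fin n → O[X]) : Fin n → O[X] :=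
  fun i => dP δ (v i) + A.mulVec v i

/-- Zero `p`-curvature of the universal member at a closed point of the parameter line. -/
def PZeroX (δ : Derivation R O O) (A : Matrix (Fin n) (Fin n) O[X]) (p : ℕ) (M : Ideal R[X]) :
    Prop :=
  ∃ c : O[X], (∀ f : O[X], (dP δ)^[p] f - c * dP δ f ∈ M.map (mapRingHom (algebraMap R O))) ∧
    ∀ (v : Fin n → O[X]) (i : Fin n),
      (connX δ A)^[p] v i - c * connX δ A v i ∈ M.map (mapRingHom (algebraMap R O))

lemma dP_C (δ : Derivation R O O) (f : O) : dP δ (C f) = C (δ f) := by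
  ext l
  rw [coeff_dP, coeff_C, coeff_C]
  split_ifs
  · rfl
  · exact map_zero δ

lemma dP_C_iterate (δ : Derivation R O O) (f : O) (k : ℕ) :
    (dP δ)^[k] (C f) = C ((⇑δ)^[k] f) := by
  induction k with
  | zero => rfl
  | succ k ih => rw [Function.iterate_succ_apply', Function.iterate_succ_apply', ih, dP_C]

lemma connX_iter (δ : Derivation R O O) (A : Matrix (Fin n) (Fin n) O[X]) (k : ℕ) (j : Fin n) :
    (connX δ A)^[k] (Pi.single j 1) = fun i => seq δ A k i j := by
  induction k with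
  | zero =>
    funext i
    simp only [Function.iterate_zero, id_eq, seq]
    by_cases hij : i = j
    · subst hij; simp
    · simp [hij]
  | succ k ih =>
    rw [Function.iterate_succ_apply', ih]
    funext i
    show dP δ (seq δ A k i j) + A.mulVec (fun i => seq δ A k i j) i = _
    rw [seq, Matrix.add_apply, Matrix.of_apply, Matrix.mulVec, dotProduct, Matrix.mul_apply]

lemma count_roots' {D : Type*} [CommRing D] [IsDomain D] (π : O →+* D) (f : O[X]) {m u N : ℕ}
    (hm : 0 < m) (hN : (X ^ u * expand O m f).natDegree ≤ N)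
    (hc : π ((X ^ u * expand O m f).coeff N) ≠ 0) (T : Finset D)
    (hT : ∀ r ∈ T, eval₂ π r f = 0) : T.card * m ≤ N := by
  classical
  have e : (X ^ u * expand O m f).map π = X ^ u * expand D m (f.map π) := by
    rw [Polynomial.map_mul, Polynomial.map_pow, map_X, map_expand]
  have hg : f.map π ≠ 0 := by
    intro h0
    apply hc
    rw [← coeff_map, e, h0, map_zero, mul_zero, coeff_zero]
  have hdeg : (f.map π).natDegree * m + u ≤ N := by
    have h1 : (X ^ u * expand D m (f.map π)).natDegree ≤ N := by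
      rw [← e]
      exact natDegree_map_le.trans hN
    rw [natDegree_mul (pow_ne_zero _ X_ne_zero) ((expand_ne_zero hm).2 hg), natDegree_expand,
      natDegree_X_pow] at h1
    omega
  have hcard : T.card ≤ (f.map π).natDegree := by
    have h1 : T.val ⊆ (f.map π).roots := by
      intro x hx
      rw [mem_roots hg, IsRoot.def, eval_map]
      exact hT x hx
    exact card_le_degree_of_subset_roots h1
  calc T.card * m ≤ (f.map π).natDegree * m := Nat.mul_le_mul_right m hcard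
    _ ≤ N := by omega

theorem algebraic [IsDomain O] [CharZero O] [Algebra.FiniteType ℤ O] [Algebra.FiniteType ℤ R]
    (δ : Derivation R O O)
    (hδ : Ideal.span (Set.range δ) = ⊤) (w : Fin n → ℕ) {W : ℕ} (hW : ∀ i, w i ≤ W) {a m : ℕ}
    (ha : 1 ≤ a) (ham : a < m) {S : Matrix (Fin n) (Fin n) O} (hS : ¬ IsNilpotent S) :
    ∃ N₀ : ℕ, ∀ p : ℕ, p.Prime → N₀ < p → ∃ 𝔪 : Ideal R, 𝔪.IsMaximal ∧ (p : R) ∈ 𝔪 ∧
      ∀ A : Matrix (Fin n) (Fin n) O[X], Sym m a w A S →
      ∀ f : R[X], f.Monic → (f.map (Ideal.Quotient.mk 𝔪)).Separable →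
        (∀ M : Ideal R[X], M.IsMaximal → 𝔪 ≤ M.comap C → f ∈ M → PZeroX δ A p M) →
        f.natDegree * m ≤ a * p + W := by
  classical
  have hm : 0 < m := by omega
  obtain ⟨i₀, hi₀⟩ := exists_coeff hS
  obtain ⟨N₀, hN₀⟩ := Pool.Agent.W432.PC.exists_closed_point O hi₀
  refine ⟨N₀, fun p hp hlt => ?_⟩
  obtain ⟨𝔫, hmax, hpn, hcn⟩ := hN₀ p hp hlt
  have hprime : 𝔫.IsPrime := hmax.isPrime
  have hjacZ : IsJacobsonRing ℤ := Pool.Agent.W432.PC.jac_int
  have hjac : IsJacobsonRing R := isJacobsonRing_of_finiteType (A := ℤ)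
  let fldL : Field (O ⧸ 𝔫) := Ideal.Quotient.field 𝔫
  let π : O →+* O ⧸ 𝔫 := Ideal.Quotient.mk 𝔫
  have hπ : ∀ x, π x = 0 ↔ x ∈ 𝔫 := fun x => Ideal.Quotient.eq_zero_iff_mem
  let 𝔪 : Ideal R := 𝔫.comap (algebraMap R O)
  have h𝔪 : 𝔪.IsMaximal := by
    have hft : Algebra.FiniteType R O := Algebra.FiniteType.of_restrictScalars_finiteType ℤ R O
    have hft2 : Algebra.FiniteType R (O ⧸ 𝔫) :=
      Algebra.FiniteType.of_surjective (Ideal.Quotient.mkₐ R 𝔫) Ideal.Quotient.mk_surjective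
    have hfin : Module.Finite R (O ⧸ 𝔫) := finite_of_finite_type_of_isJacobsonRing R (O ⧸ 𝔫)
    have hint : Algebra.IsIntegral R (O ⧸ 𝔫) := inferInstance
    have hbot : (⊥ : Ideal (O ⧸ 𝔫)).IsMaximal := Ideal.bot_isMaximal
    have h1 := Ideal.isMaximal_comap_of_isIntegral_of_isMaximal (R := R) (S := O ⧸ 𝔫) ⊥
    have h2 : (⊥ : Ideal (O ⧸ 𝔫)).comap (algebraMap R (O ⧸ 𝔫)) = 𝔪 := by
      ext x
      rw [Ideal.mem_comap, Ideal.mem_bot]
      exact hπ _
    rwa [h2] at h1
  refine ⟨𝔪, h𝔪, ?_, ?_⟩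
  · rw [Ideal.mem_comap, map_natCast]; exact hpn
  intro A hA f hf hsep hvan
  let fldk : Field (R ⧸ 𝔪) := Ideal.Quotient.field 𝔪
  let σ : R ⧸ 𝔪 →+* O ⧸ 𝔫 := Ideal.quotientMap 𝔫 (algebraMap R O) le_rfl
  let L := AlgebraicClosure (O ⧸ 𝔫)
  let ι : O ⧸ 𝔫 →+* L := algebraMap _ _
  let ψ : R ⧸ 𝔪 →+* L := ι.comp σ
  have hψ : ∀ x : R, ψ (Ideal.Quotient.mk 𝔪 x) = ι (π (algebraMap R O x)) := fun x => by
    show ι (σ (Ideal.Quotient.mk 𝔪 x)) = _
    rw [Ideal.quotientMap_mk]
  let fb : (R ⧸ 𝔪)[X] := f.map (Ideal.Quotient.mk 𝔪)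
  have hfb : fb.Monic := hf.map _
  let T : Finset L := (fb.map ψ).roots.toFinset
  have hTcard : T.card = f.natDegree := by
    have h1 : (fb.map ψ).Separable := hsep.map
    rw [Multiset.toFinset_card_of_nodup (nodup_roots h1),
      ← (IsAlgClosed.splits (fb.map ψ)).natDegree_eq_card_roots, natDegree_map, hf.natDegree_map]
  -- the closed points
  have key : ∀ r ∈ T, ∃ c : O[X], (∀ g : O[X], eval₂ (ι.comp π) r ((dP δ)^[p] g - c * dP δ g) = 0) ∧
      ∀ (v : Fin n → O[X]) (i : Fin n),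
        eval₂ (ι.comp π) r ((connX δ A)^[p] v i - c * connX δ A v i) = 0 := by
    intro r hr
    have hr0 : eval₂ ψ r fb = 0 := by
      rw [Multiset.mem_toFinset, mem_roots (hfb.map ψ).ne_zero, IsRoot.def, eval_map] at hr
      exact hr
    let ev : (R ⧸ 𝔪)[X] →+* L := eval₂RingHom ψ r
    have hker : (RingHom.ker ev).IsMaximal := by
      have hpr : (RingHom.ker ev).IsPrime := RingHom.ker_isPrime ev
      refine IsPrime.to_maximal_ideal ?_
      intro hbot
      have h1 : fb ∈ RingHom.ker ev := hr0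
      rw [hbot, Ideal.mem_bot] at h1
      exact hfb.ne_zero h1
    let M : Ideal R[X] := (RingHom.ker ev).comap (mapRingHom (Ideal.Quotient.mk 𝔪))
    have hM : M.IsMaximal := Ideal.comap_isMaximal_of_surjective _
      (Polynomial.map_surjective _ Ideal.Quotient.mk_surjective)
    have hMC : 𝔪 ≤ M.comap C := by
      intro x hx
      rw [Ideal.mem_comap, Ideal.mem_comap, coe_mapRingHom, map_C,
        Ideal.Quotient.eq_zero_iff_mem.2 hx, C_0]
      exact Ideal.zero_mem _
    have hMf : f ∈ M := hr0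
    obtain ⟨c, h1, h2⟩ := hvan M hM hMC hMf
    have hle : M.map (mapRingHom (algebraMap R O)) ≤ RingHom.ker (eval₂RingHom (ι.comp π) r) := by
      rw [Ideal.map_le_iff_le_comap]
      intro P hP
      have hP' : eval₂ ψ r (P.map (Ideal.Quotient.mk 𝔪)) = 0 := hP
      rw [Ideal.mem_comap, RingHom.mem_ker, coe_eval₂RingHom, coe_mapRingHom, eval₂_map]
      rw [eval₂_map] at hP'
      have h3 : (ι.comp π).comp (algebraMap R O) = ψ.comp (Ideal.Quotient.mk 𝔪) :=
        RingHom.ext fun x => (hψ x).symm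
      rw [h3]
      exact hP'
    exact ⟨c, fun g => hle (h1 g), fun v i => hle (h2 v i)⟩
  rcases T.eq_empty_or_nonempty with hT0 | ⟨r₀, hr₀⟩
  · rw [← hTcard, hT0]
    simp
  -- a function with nonzero derivative
  obtain ⟨f₀, hf₀⟩ : ∃ f₀, δ f₀ ∉ 𝔫 := by
    by_contra h
    push Not at h
    apply hmax.ne_top
    rw [eq_top_iff, ← hδ, Ideal.span_le]
    rintro _ ⟨f, rfl⟩
    exact h f
  have hf₀' : π (δ f₀) ≠ 0 := fun h => hf₀ ((hπ _).1 h)
  obtain ⟨c₀, hc₀⟩ : ∃ c₀ : O, π c₀ * π (δ f₀) = π ((⇑δ)^[p] f₀) := by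
    obtain ⟨c₀, h⟩ := Ideal.Quotient.mk_surjective (I := 𝔫) (π ((⇑δ)^[p] f₀) * (π (δ f₀))⁻¹)
    refine ⟨c₀, ?_⟩
    show Ideal.Quotient.mk 𝔫 c₀ * π (δ f₀) = _
    rw [h, mul_assoc, inv_mul_cancel₀ hf₀', mul_one]
  obtain ⟨i, j, hij⟩ : ∃ i j, π ((S ^ p) i j) ≠ 0 := by
    by_contra h
    push Not at h
    refine pow_ne π ?_ p ?_ (S := S) (i := i₀)
    · rw [Ne, hπ]; exact hcn
    · have : S.map π ^ p = (S ^ p).map π := by
        have := (RingHom.mapMatrix (m := Fin n) π).map_pow S p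
        exact this.symm
      rw [this]
      ext i j
      exact h i j
  have hs := hA.seq hm ha δ p i j
  have hs1 := (hA.seq hm ha δ 1 i j).1
  let h : O[X] := seq δ A p i j - C c₀ * seq δ A 1 i j
  have ef : X ^ w j * expand O m h = hat m w (seq δ A p) i j - C c₀ * hat m w (seq δ A 1) i j := by
    simp only [h, hat]
    rw [map_sub, map_mul, expand_C]
    ring
  have hp2 := hp.two_le
  have hlt2 : a * 1 + w i < a * p + w i := by
    have : a * 1 < a * p := Nat.mul_lt_mul_of_pos_left (by omega) (by omega)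
    omega
  have hdeg : (X ^ w j * expand O m h).natDegree ≤ a * p + w i := by
    rw [ef]
    refine (natDegree_sub_le _ _).trans (max_le hs.1 ?_)
    exact (natDegree_C_mul_le _ _).trans (hs1.trans hlt2.le)
  have hcoef : (ι.comp π) ((X ^ w j * expand O m h).coeff (a * p + w i)) ≠ 0 := by
    rw [ef, coeff_sub, coeff_C_mul, hs.2, coeff_eq_zero_of_natDegree_lt (lt_of_le_of_lt hs1 hlt2),
      mul_zero, sub_zero, RingHom.comp_apply, _root_.map_ne_zero]
    exact hij
  rw [← hTcard]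
  refine (count_roots' (ι.comp π) h hm hdeg hcoef T ?_).trans (by have := hW i; omega)
  intro r hr
  obtain ⟨c, hc1, hc2⟩ := key r hr
  have h1 := hc1 (C f₀)
  rw [dP_C_iterate, dP_C, eval₂_sub, eval₂_mul, eval₂_C, eval₂_C] at h1
  have h2 : eval₂ (ι.comp π) r c = (ι.comp π) c₀ := by
    have h3 : (ι.comp π) ((⇑δ)^[p] f₀) = (ι.comp π) c₀ * (ι.comp π) (δ f₀) := by
      rw [RingHom.comp_apply, RingHom.comp_apply, RingHom.comp_apply, ← hc₀, map_mul]
    rw [h3] at h1
    have h4 : (ι.comp π) (δ f₀) ≠ 0 := by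
      rw [RingHom.comp_apply, _root_.map_ne_zero]; exact hf₀'
    have h5 : ((ι.comp π) c₀ - eval₂ (ι.comp π) r c) * (ι.comp π) (δ f₀) = 0 := by
      rw [sub_mul]; exact h1
    rcases mul_eq_zero.1 h5 with h6 | h6
    · exact (sub_eq_zero.1 h6).symm
    · exact absurd h6 h4
  have h3 := hc2 (Pi.single j 1) i
  have h4 := connX_iter δ A 1 j
  rw [Function.iterate_one] at h4
  rw [connX_iter, h4] at h3
  simp only [h]
  rw [eval₂_sub, eval₂_mul, h2] at h3
  rw [eval₂_sub, eval₂_mul, eval₂_C]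
  exact h3

end Pool.Agent.TH924.PG
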