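import Pool.Agent.TH924.PC.Dev

set_option autoImplicit false

/-!
The sieve for sets with at most `(a p + W) / m` classes.
-/

namespace Pool.Agent.TH924.PG

open Finset Filter Topology Pool.Agent.TH924.PC

/-- At most `(a p + W) / m` classes. -/
def Cls2 (A : ℕ → ℤ → Prop) (a m W N₀ : ℕ) : Prop :=
  ∀ p : ℕ, p.Prime → N₀ < p → ∀ T : Finset (ZMod p),
    (∀ t ∈ T, ∃ q : ℤ, (q : ZMod p) = t ∧ A p q) → T.card * m ≤ a * p + W

lemma Cls2.cls {A : ℕ → ℤ → Prop} {a m W N₀ : ℕ} (h : Cls2 A a m W N₀) (k : ℕ) :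
    Cls A (m * k) (a * k + 1) (max N₀ (W * k)) := by
  intro p hp hlt T hT
  have h1 := h p hp (lt_of_le_of_lt (le_max_left _ _) hlt) T hT
  have h2 : W * k < p := lt_of_le_of_lt (le_max_right _ _) hlt
  calc T.card * (m * k) = (T.card * m) * k := by ring
    _ ≤ (a * p + W) * k := Nat.mul_le_mul_right k h1
    _ = a * k * p + W * k := by ring
    _ ≤ a * k * p + p := by omega
    _ = (a * k + 1) * p := by ring

open Classical in
theorem deviate2 {a m : ℕ} (ha : 1 ≤ a) (ham : a < m) (W N₀ : ℕ) {β θ : ℝ} (K : ℝ)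
    (hβ : (a : ℝ) / m < β) (hβ1 : β ≤ 1)
    (hθ : 1 < θ * (1 + (β - a / m) ^ 2 / ((a / m) * (1 - a / m)))) :
    ∃ C : ℝ, ∀ A : ℕ → ℤ → Prop, Cls2 A a m W N₀ → ∀ X : ℝ, 2 ≤ X →
      (Set.ncard {q : ℤ | |(q : ℝ)| ≤ X ∧
        ∑ p ∈ Icc 1 ⌊X ^ θ⌋₊ with p.Prime ∧ ¬ A p q, Real.log p / p ≤
          (1 - β) * θ * Real.log X + K} : ℝ) ≤ C * X ^ θ := by
  have hm0 : (0 : ℝ) < m := by
    have : 0 < m := by omega
    exact_mod_cast this
  have ha0 : (0 : ℝ) < a := by exact_mod_cast ha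
  have hα0 : (0 : ℝ) < a / m := by positivity
  have hα1 : (a : ℝ) / m < 1 := by
    rw [div_lt_one hm0]
    exact_mod_cast ham
  have ht : Tendsto (fun k : ℕ => (a : ℝ) / m + 1 / m * (1 / (k : ℝ))) atTop (𝓝 ((a : ℝ) / m)) := by
    have h1 : Tendsto (fun k : ℕ => 1 / (m : ℝ) * (1 / (k : ℝ))) atTop (𝓝 0) := by
      simpa using tendsto_one_div_atTop_nhds_zero_nat.const_mul (1 / (m : ℝ))
    simpa using h1.const_add ((a : ℝ) / m)
  have hc : ContinuousAt (fun α : ℝ => θ * (1 + (β - α) ^ 2 / (α * (1 - α)))) ((a : ℝ) / m) := by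
    have h1 : (a : ℝ) / m * (1 - a / m) ≠ 0 := (mul_pos hα0 (by linarith)).ne'
    fun_prop (disch := exact h1)
  have e1 := (hc.tendsto.comp ht).eventually (lt_mem_nhds hθ)
  have e2 := ht.eventually (gt_mem_nhds hβ)
  obtain ⟨k, ⟨hk1, hk2⟩, hk3⟩ := ((e1.and e2).and (eventually_ge_atTop 1)).exists
  have hk0 : (0 : ℝ) < k := by exact_mod_cast hk3
  have he : (a : ℝ) / m + 1 / m * (1 / (k : ℝ)) = ((a * k + 1 : ℕ) : ℝ) / ((m * k : ℕ) : ℝ) := by
    push_cast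
    field_simp
  simp only [Function.comp_apply] at hk1
  rw [he] at hk1 hk2
  have hlt : a * k + 1 < m * k := by
    have h1 : ((a * k + 1 : ℕ) : ℝ) / ((m * k : ℕ) : ℝ) < 1 := lt_of_lt_of_le hk2 hβ1
    have h2 : (0 : ℝ) < ((m * k : ℕ) : ℝ) := by push_cast; positivity
    rw [div_lt_one h2] at h1
    exact_mod_cast h1
  obtain ⟨C, hC⟩ := deviate (P₁ := max N₀ (W * k)) (Nat.le_add_left 1 _) hlt K hk2 hβ1 hk1
  exact ⟨C, fun A hA X hX => hC A (hA.cls k) X hX⟩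

end Pool.Agent.TH924.PG
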