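import Pool.Agent.TH924.PG.Pen
import Pool.Agent.TH924.PG.Asy
import Pool.Agent.W77.IM.FinalS
import Pool.Agent.W432.PC.Points

set_option autoImplicit false

/-!
Pencils `∇ + q Φ` with nilpotent `Φ`: either the generic member has constant semisimplification, or
few classes `q` modulo `p` have vanishing `p`-curvature.
-/

namespace Pool.Agent.TH924.PG

open Polynomial Module Pool.Agent.W77.IM

universe u v w

/-- The `p`-curvatures vanish over `p`, on a dense open subset of the closed points. -/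
def VanD {R F V : Type*} [CommRing R] [Field F] [Algebra R F] [AddCommGroup V] [Module F V]
    {A : Subalgebra R F} (nabla : V →+ V) (E : Submodule A V) (p : ℕ) : Prop :=
  ∀ 𝔭 ∈ (Ideal.span {(p : R)}).minimalPrimes, ∃ g : R, g ∉ 𝔭 ∧ ∀ 𝔪 : Ideal R, 𝔪.IsMaximal →
    𝔭 ≤ 𝔪 → g ∉ 𝔪 → ∀ v ∈ E, nabla^[p] v ∈ 𝔪.map (algebraMap R A) • E

section coeff

variable {R F V : Type*} [CommRing R] [Field F] [Algebra R F] [AddCommGroup V] [Module F V]

lemma cf_mem_smul (δ : Derivation R F F) (nabla : V →+ V)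
    (hnabla : ∀ (f : F) (v : V), nabla (f • v) = δ f • v + f • nabla v) (Φ : V →ₗ[F] V) {e : ℕ}
    (he : 1 ≤ e) (hΦe : ∀ v, (⇑Φ)^[e] v = 0) {A : Subalgebra R F} (E : Submodule A V)
    (hE : ∀ v ∈ E, nabla v ∈ E) (hΦ : ∀ v ∈ E, Φ v ∈ E) {𝔪 : Ideal R} {p : ℕ} (hp : p.Prime)
    (hp𝔪 : (p : R) ∈ 𝔪) (T : Finset (ZMod p)) (hcard : (e - 1) * p + (e - 1) < T.card * e)
    (hT : ∀ τ ∈ T, ∃ q : ℤ, (q : ZMod p) = τ ∧
      ∀ v ∈ E, (member nabla Φ (q : F))^[p] v ∈ 𝔪.map (algebraMap R A) • E) :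
    ∀ v ∈ E, ∀ k, cf nabla Φ.toAddMonoidHom p k v ∈ 𝔪.map (algebraMap R A) • E := by
  classical
  have hpF : Fact p.Prime := ⟨hp⟩
  intro v hv
  have hmem : ∀ k, cf nabla Φ.toAddMonoidHom p k v ∈ E := fun k =>
    cf_mem nabla Φ.toAddMonoidHom (E : Set V) E.zero_mem (fun a ha b hb => E.add_mem ha hb) hE hΦ
      p k hv
  have hzero : ∀ k, T.card ≤ k → cf nabla Φ.toAddMonoidHom p k v = 0 := by
    intro k hk
    refine cf_growth nabla Φ.toAddMonoidHom he hΦe ?_ v
    have h1 : T.card * e ≤ e * k := by rw [mul_comm]; exact Nat.mul_le_mul_left e hk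
    omega
  have hTp : T.card ≤ p := by
    have := Finset.card_le_univ T
    rwa [ZMod.card] at this
  let N : Submodule A E := (𝔪.map (algebraMap R A) • E).comap E.subtype
  have hG : ∀ g : E ⧸ N, p • g = 0 := by
    intro g
    obtain ⟨u, rfl⟩ := Submodule.Quotient.mk_surjective N g
    rw [← Submodule.Quotient.mk_smul, Submodule.Quotient.mk_eq_zero]
    show ((p • u : E) : V) ∈ 𝔪.map (algebraMap R A) • E
    have h1 : ((p • u : E) : V) = ((p : ℕ) : A) • (u : V) := by
      rw [Nat.cast_smul_eq_nsmul]; rfl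
    rw [h1]
    refine Submodule.smul_mem_smul ?_ u.2
    have h2 : ((p : ℕ) : A) = algebraMap R A (p : R) := by simp
    rw [h2]
    exact Ideal.mem_map_of_mem _ hp𝔪
  let c : ℕ → E ⧸ N := fun k => Submodule.Quotient.mk ⟨cf nabla Φ.toAddMonoidHom p k v, hmem k⟩
  have key : ∀ k < T.card, c k = 0 := by
    intro k hk
    refine coeff_zero_of_roots hG c T le_rfl ?_ hk
    intro τ hτ
    obtain ⟨q, hq, h⟩ := hT τ hτ
    refine ⟨q, hq, ?_⟩
    have h1 := h v hv
    rw [member_iterate δ nabla hnabla Φ (by rw [δ.map_intCast]) p v] at h1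
    have h2 : ∑ k ∈ Finset.range (p + 1), ((q : F)) ^ k • cf nabla Φ.toAddMonoidHom p k v =
        ∑ k ∈ Finset.range T.card, (q ^ k : ℤ) • cf nabla Φ.toAddMonoidHom p k v := by
      have h3 : ∀ k, ((q : F)) ^ k • cf nabla Φ.toAddMonoidHom p k v =
          (q ^ k : ℤ) • cf nabla Φ.toAddMonoidHom p k v := by
        intro k
        rw [← Int.cast_pow, Int.cast_smul_eq_zsmul]
      rw [Finset.sum_congr rfl fun k _ => h3 k]
      symm
      refine Finset.sum_subset (Finset.range_mono (by omega)) fun k _ hk => ?_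
      rw [Finset.mem_range, not_lt] at hk
      rw [hzero k hk, smul_zero]
    rw [h2] at h1
    have h4 : ∑ k ∈ Finset.range T.card, q ^ k • c k = Submodule.Quotient.mk
        (p := N) (∑ k ∈ Finset.range T.card, (q ^ k : ℤ) •
          (⟨cf nabla Φ.toAddMonoidHom p k v, hmem k⟩ : E)) := by
      simp only [c]
      rw [← Submodule.mkQ_apply, map_sum]
      refine Finset.sum_congr rfl fun k _ => ?_
      rw [map_zsmul]
      rfl
    rw [h4, Submodule.Quotient.mk_eq_zero]
    show ((∑ k ∈ Finset.range T.card, (q ^ k : ℤ) •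
          (⟨cf nabla Φ.toAddMonoidHom p k v, hmem k⟩ : E) : E) : V) ∈ 𝔪.map (algebraMap R A) • E
    rw [AddSubmonoidClass.coe_finsetSum]
    exact h1
  intro k
  by_cases hk : k < T.card
  · have h1 := key k hk
    simp only [c] at h1
    rw [Submodule.Quotient.mk_eq_zero] at h1
    exact h1
  · rw [hzero k (by omega)]
    exact Submodule.zero_mem _

end coeff

section ext

variable {R R' F : Type*} [CommRing R] [CommRing R'] [Field F] [Algebra R R'] [Algebra R F]
  [Algebra R' F] [IsScalarTower R R' F] {x : F} {T : R[X]}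

lemma coord_le {c : F} (hc : c ∈ CoordRing x T R) : c ∈ CoordRing x T R' := by
  induction hc using Algebra.adjoin_induction with
  | mem c hc => exact Algebra.subset_adjoin hc
  | algebraMap c =>
    rw [IsScalarTower.algebraMap_apply R R' F]
    exact Subalgebra.algebraMap_mem _ _
  | add a b _ _ ha hb => exact Subalgebra.add_mem _ ha hb
  | mul a b _ _ ha hb => exact Subalgebra.mul_mem _ ha hb

lemma map_le (𝔪' : Ideal R') {r : CoordRing x T R}
    (hr : r ∈ (𝔪'.comap (algebraMap R R')).map (algebraMap R (CoordRing x T R))) :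
    (⟨r, coord_le r.2⟩ : CoordRing x T R') ∈ 𝔪'.map (algebraMap R' (CoordRing x T R')) := by
  induction hr using Submodule.span_induction with
  | mem r hr =>
    obtain ⟨a, ha, rfl⟩ := hr
    have h1 : (⟨(algebraMap R (CoordRing x T R) a : CoordRing x T R), coord_le (R' := R')
        (algebraMap R (CoordRing x T R) a).2⟩ : CoordRing x T R') =
        algebraMap R' (CoordRing x T R') (algebraMap R R' a) := by
      apply Subtype.ext
      change algebraMap R F a = algebraMap R' F (algebraMap R R' a)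
      rw [IsScalarTower.algebraMap_apply R R' F]
    rw [h1]
    exact Ideal.mem_map_of_mem _ ha
  | zero => exact Ideal.zero_mem _
  | add a b _ _ ha hb => exact Ideal.add_mem _ ha hb
  | smul a b _ hb => exact Ideal.mul_mem_left _ (⟨a, coord_le a.2⟩ : CoordRing x T R') hb

variable {V : Type*} [AddCommGroup V] [Module F V]

lemma smul_le (𝔪' : Ideal R') (E : Submodule (CoordRing x T R) V) {u : V}
    (hu : u ∈ (𝔪'.comap (algebraMap R R')).map (algebraMap R (CoordRing x T R)) • E) :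
    u ∈ 𝔪'.map (algebraMap R' (CoordRing x T R')) •
      Submodule.span (CoordRing x T R') (E : Set V) := by
  induction hu using Submodule.smul_induction_on' with
  | smul r hr e he =>
    exact Submodule.smul_mem_smul (r := (⟨r, coord_le r.2⟩ : CoordRing x T R')) (map_le 𝔪' hr)
      (Submodule.subset_span he)
  | add a _ b _ ha hb => exact Submodule.add_mem _ ha hb

lemma span_fg {E : Submodule (CoordRing x T R) V} (h : E.FG) :
    (Submodule.span (CoordRing x T R') (E : Set V)).FG := by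
  obtain ⟨s, rfl⟩ := h
  refine ⟨s, le_antisymm (Submodule.span_mono Submodule.subset_span) (Submodule.span_le.2 ?_)⟩
  intro v hv
  induction hv using Submodule.span_induction with
  | mem v hv => exact Submodule.subset_span hv
  | zero => exact Submodule.zero_mem _
  | add a b _ _ ha hb => exact Submodule.add_mem _ ha hb
  | smul c v _ hv =>
    exact Submodule.smul_mem _ (⟨c, coord_le c.2⟩ : CoordRing x T R') hv

end ext

section iter

variable {R F V : Type*} [CommRing R] [Field F] [Algebra R F] [AddCommGroup V] [Module F V]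

lemma span_stable (δ : Derivation R F F) {x : F} (hx : δ x = 1) {T : R[X]}
    {B : Subalgebra R F} (hB : B = CoordRing x T R) {nabla : V →+ V}
    (hnabla : ∀ (f : F) (v : V), nabla (f • v) = δ f • v + f • nabla v) {s : Set V}
    (hs : ∀ v ∈ s, nabla v ∈ Submodule.span B s) :
    ∀ v ∈ Submodule.span B s, nabla v ∈ Submodule.span B s := by
  subst hB
  intro v hv
  induction hv using Submodule.span_induction with
  | mem v hv => exact hs v hv
  | zero => rw [map_zero]; exact Submodule.zero_mem _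
  | add u v _ _ hu hv => rw [map_add]; exact Submodule.add_mem _ hu hv
  | smul c u hu' hu =>
    have h1 : nabla (c • u) = (dA δ hx T c) • u + c • nabla u := hnabla c u
    rw [h1]
    exact Submodule.add_mem _ (Submodule.smul_mem _ _ hu') (Submodule.smul_mem _ _ hu)

lemma iter_mem (δ : Derivation R F F) {x : F} (hx : δ x = 1) {T : R[X]}
    (hT : (aeval x T : F) ≠ 0) {B : Subalgebra R F} (hB : B = CoordRing x T R) {nabla : V →+ V}
    (hnabla : ∀ (f : F) (v : V), nabla (f • v) = δ f • v + f • nabla v) {s : Set V}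
    (hs : ∀ v ∈ s, nabla v ∈ Submodule.span B s) {𝔪 : Ideal R} {p : ℕ} (hp : p.Prime)
    (hp𝔪 : (p : R) ∈ 𝔪)
    (h : ∀ v ∈ s, nabla^[p] v ∈ 𝔪.map (algebraMap R B) • Submodule.span B s) :
    ∀ v ∈ Submodule.span B s, nabla^[p] v ∈ 𝔪.map (algebraMap R B) • Submodule.span B s := by
  have hst := span_stable δ hx hB hnabla hs
  subst hB
  intro v hv
  induction hv using Submodule.span_induction with
  | mem v hv => exact h v hv
  | zero => rw [iterate_map_zero]; exact Submodule.zero_mem _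
  | add u v _ _ hu hv => rw [iterate_map_add]; exact Submodule.add_mem _ hu hv
  | smul c u hu' hu =>
    have h1 := psi_linear δ nabla hx hT hnabla hst hp hp𝔪 1 c hu'
    rw [mul_one] at h1
    have h2 := Submodule.add_mem _ h1 (Submodule.smul_mem _ c hu)
    rwa [sub_add_cancel] at h2

end iter

section dich

/-- Dichotomy. -/
theorem dich {R : Type u} [CommRing R] [IsDomain R] [CharZero R] [Algebra.FiniteType ℤ R]
    {F : Type v} [Field F] [Algebra R F] (hR : Function.Injective (algebraMap R F))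
    (δ : Derivation R F F) (x : F) (hx : δ x = 1) (T : R[X]) (hT : T ≠ 0)
    {V : Type w} [AddCommGroup V] [Module F V] [FiniteDimensional F V]
    (nabla : V →+ V) (hnabla : ∀ (f : F) (v : V), nabla (f • v) = δ f • v + f • nabla v)
    (Φ : V →ₗ[F] V) {e : ℕ} (he : 1 ≤ e) (hΦe : ∀ v, (⇑Φ)^[e] v = 0)
    (E : Submodule (CoordRing x T R) V) (hfg : E.FG) (hE : ∀ v ∈ E, nabla v ∈ E)
    (hΦ : ∀ v ∈ E, Φ v ∈ E) (hspan : Submodule.span F (E : Set V) = ⊤)
    (t : F) (hδt : δ t = 0) (ht : Transcendental R t)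
    (F₀ : Subfield F) (hF₀ : ∀ a : R, algebraMap R F a ∈ F₀) (hxF₀ : x ∈ F₀)
    (hδF₀ : ∀ f ∈ F₀, δ f ∈ F₀) (hclosed : IsAlgClosed (constField δ F₀))
    (hgen : Subfield.closure ({c | δ c = 0} ∪ (F₀ : Set F)) = ⊤) :
    GradedOver (member nabla Φ t) F₀ ∨
      ∃ N₀, Cls2 (fun p q => VanD (member nabla Φ (q : F)) E p) (e - 1) e (e - 1) N₀ := by
  classical
  by_cases hc : ∃ N₀, Cls2 (fun p q => VanD (member nabla Φ (q : F)) E p) (e - 1) e (e - 1) N₀
  · exact Or.inr hc
  left
  unfold Cls2 at hc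
  push Not at hc
  have hjacZ : IsJacobsonRing ℤ := Pool.Agent.W432.PC.jac_int
  have hjac : IsJacobsonRing R := isJacobsonRing_of_finiteType (A := ℤ)
  let S : Set (Ideal R) := {𝔪 | 𝔪.IsMaximal ∧ ∃ p : ℕ, p.Prime ∧ (p : R) ∈ 𝔪 ∧ ∀ v ∈ E, ∀ k,
    cf nabla Φ.toAddMonoidHom p k v ∈ 𝔪.map (algebraMap R (CoordRing x T R)) • E}
  have hS : DensePoints S := by
    intro h hh
    obtain ⟨N₁, hN₁⟩ := Pool.Agent.W432.PC.exists_closed_point R hh
    obtain ⟨p, hp, hlt, U, hU, hcard⟩ := hc N₁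
    obtain ⟨𝔪₀, hmax₀, hp₀, hh₀⟩ := hN₁ p hp hlt
    have hle : Ideal.span {(p : R)} ≤ 𝔪₀ := by
      rw [Ideal.span_singleton_le_iff_mem]; exact hp₀
    have hprime₀ := hmax₀.isPrime
    obtain ⟨𝔭, h𝔭, h𝔭le⟩ := Ideal.exists_minimalPrimes_le hle
    have hprime : 𝔭.IsPrime := h𝔭.1.1
    have hp𝔭 : (p : R) ∈ 𝔭 := h𝔭.1.2 (Ideal.mem_span_singleton_self _)
    have h1 : ∀ τ : ZMod p, ∃ (q : ℤ) (g : R), g ∉ 𝔭 ∧ (τ ∈ U → (q : ZMod p) = τ ∧
        ∀ 𝔪 : Ideal R, 𝔪.IsMaximal → 𝔭 ≤ 𝔪 → g ∉ 𝔪 → ∀ v ∈ E,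
          (member nabla Φ (q : F))^[p] v ∈ 𝔪.map (algebraMap R (CoordRing x T R)) • E) := by
      intro τ
      by_cases hτ : τ ∈ U
      · obtain ⟨q, hq, hv⟩ := hU τ hτ
        obtain ⟨g, hg, h⟩ := hv 𝔭 h𝔭
        exact ⟨q, g, hg, fun _ => ⟨hq, h⟩⟩
      · exact ⟨0, 1, fun h => hprime.ne_top ((Ideal.eq_top_iff_one _).2 h), fun h => absurd h hτ⟩
    choose q g hg hqg using h1
    have hG : (∏ τ ∈ U, g τ) * h ∉ 𝔭 := by
      intro hmem
      rcases hprime.mem_or_mem hmem with h2 | h2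
      · obtain ⟨τ, -, h3⟩ := (hprime.prod_mem_iff).1 h2
        exact hg τ h3
      · exact hh₀ (h𝔭le h2)
    have hJ : 𝔭.jacobson = 𝔭 := (isJacobsonRing_iff_prime_eq.1 hjac) 𝔭 hprime
    rw [← hJ, Ideal.jacobson, Ideal.mem_sInf] at hG
    push Not at hG
    obtain ⟨𝔪, ⟨h𝔭𝔪, hmax⟩, hG𝔪⟩ := hG
    have hprimem := hmax.isPrime
    have hh𝔪 : h ∉ 𝔪 := fun h2 => hG𝔪 (𝔪.mul_mem_left _ h2)
    have hg𝔪 : ∀ τ ∈ U, g τ ∉ 𝔪 := fun τ hτ h2 =>
      hG𝔪 (𝔪.mul_mem_right _ ((hprimem.prod_mem_iff).2 ⟨τ, hτ, h2⟩))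
    refine ⟨𝔪, ⟨hmax, p, hp, h𝔭𝔪 hp𝔭, ?_⟩, hmax, hh𝔪⟩
    refine cf_mem_smul δ nabla hnabla Φ he hΦe E hE hΦ hp (h𝔭𝔪 hp𝔭) U ?_ ?_
    · exact hcard
    · intro τ hτ
      exact ⟨q τ, (hqg τ hτ).1, (hqg τ hτ).2 𝔪 hmax h𝔭𝔪 (hg𝔪 τ hτ)⟩
  -- the generic member
  let instF : Algebra R[X] F := (aeval t : R[X] →ₐ[R] F).toRingHom.toAlgebra
  have halg : ∀ P : R[X], algebraMap R[X] F P = aeval t P := fun P => rfl
  have hsc : IsScalarTower R R[X] F := by
    refine IsScalarTower.of_algebraMap_eq fun a => ?_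
    rw [halg, ← C_eq_algebraMap, aeval_C]
  have hinj : Function.Injective (algebraMap R[X] F) := by
    intro P Q hPQ
    rw [halg, halg] at hPQ
    exact (transcendental_iff_injective.1 ht) hPQ
  let δ' : Derivation R[X] F F :=
    { toFun := δ
      map_add' := map_add δ
      map_smul' := by
        intro P f
        have h1 : δ (aeval t P) = 0 := by
          rw [Derivation.map_aeval, hδt, smul_zero]
        show δ (aeval t P * f) = aeval t P * δ f
        rw [Derivation.leibniz, h1, smul_zero, add_zero, smul_eq_mul]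
      map_one_eq_zero' := δ.map_one_eq_zero
      leibniz' := δ.leibniz }
  have hmember : ∀ (f : F) (v : V), member nabla Φ t (f • v) =
      δ' f • v + f • member nabla Φ t v := by
    intro f v
    show nabla (f • v) + t • Φ (f • v) = δ f • v + f • (nabla v + t • Φ v)
    rw [hnabla, map_smul, smul_add, smul_comm t f, add_assoc]
  have hTx : (aeval x T : F) ≠ 0 :=
    aeval_ne_zero hR (δ.restrictScalars ℤ) (fun a => δ.map_algebraMap a) x hx hT
  have hTx' : (aeval x (T.map (algebraMap R R[X])) : F) ≠ 0 := by rwa [← aeval_T]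
  let E' : Submodule (CoordRing x T R[X]) V := Submodule.span _ (E : Set V)
  have hB : CoordRing x T R[X] = CoordRing x (T.map (algebraMap R R[X])) R[X] := by
    show Algebra.adjoin R[X] {x, (aeval x T)⁻¹} =
      Algebra.adjoin R[X] {x, (aeval x (T.map (algebraMap R R[X])))⁻¹}
    rw [← aeval_T]
  have hgenE : ∀ v ∈ (E : Set V), member nabla Φ t v ∈ Submodule.span (CoordRing x T R[X])
      (E : Set V) := by
    intro v hv
    rw [member_apply]
    refine Submodule.add_mem _ (Submodule.subset_span (hE v hv)) ?_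
    have h1 : t • Φ v = (algebraMap R[X] (CoordRing x T R[X]) X) • Φ v := by
      show t • Φ v = (algebraMap R[X] F X) • Φ v
      rw [halg, aeval_X]
    rw [h1]
    exact Submodule.smul_mem _ _ (Submodule.subset_span (hΦ v hv))
  have hE' := span_stable δ' hx hB hmember hgenE
  have hnil : NilpotentOver S (member nabla Φ t) E' := by
    refine ⟨1, one_ne_zero, fun 𝔪' hmax hmem _ v hv => ?_⟩
    obtain ⟨-, p, hp, hp𝔪, hcf⟩ := hmem
    have hp𝔪' : (p : R[X]) ∈ 𝔪' := by
      rw [Ideal.mem_comap, map_natCast] at hp𝔪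
      exact hp𝔪
    refine ⟨p, iter_mem δ' hx hTx' hB hmember hgenE hp hp𝔪' ?_ v hv⟩
    intro u hu
    rw [member_iterate δ nabla hnabla Φ hδt p u]
    refine Submodule.sum_mem _ fun k _ => ?_
    have h1 : t ^ k • cf nabla Φ.toAddMonoidHom p k u =
        (algebraMap R[X] (CoordRing x T R[X]) (X ^ k)) • cf nabla Φ.toAddMonoidHom p k u := by
      show t ^ k • cf nabla Φ.toAddMonoidHom p k u =
        (algebraMap R[X] F (X ^ k)) • cf nabla Φ.toAddMonoidHom p k u
      rw [halg, map_pow, aeval_X]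
    rw [h1]
    exact Submodule.smul_mem _ _ (smul_le 𝔪' E (hcf u hu k))
  exact finalS (R₀ := R) (R := R[X]) (C_injective) hinj δ' x hx T hT (member nabla Φ t) hmember E'
    (span_fg hfg) hE' (by
      rw [← top_le_iff, ← hspan]
      exact Submodule.span_mono Submodule.subset_span) hS hnil F₀ hF₀ hxF₀ hδF₀ hclosed hgen

end dich

end Pool.Agent.TH924.PG
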