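import Pool.Agent.TH924.PG.Sym
import Pool.Agent.TH924.PG.Asy
import Pool.Agent.W432.PC.Points

set_option autoImplicit false

/-!
At most `(a p + W) / m` classes of the parameter give zero `p`-curvature.
-/

namespace Pool.Agent.TH924.PG

open Polynomial

variable {R O : Type*} [CommRing R] [CommRing O] [Algebra R O] {n : ℕ}

/-- The `p`-curvature of `δ + A` is zero modulo `𝔭`. -/
def PZero (δ : Derivation R O O) (A : Matrix (Fin n) (Fin n) O) (p : ℕ) (𝔭 : Ideal R) : Prop :=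
  ∃ c : O, (∀ f : O, (⇑δ)^[p] f - c * δ f ∈ 𝔭.map (algebraMap R O)) ∧
    ∀ (v : Fin n → O) (i : Fin n),
      (conn δ A)^[p] v i - c * conn δ A v i ∈ 𝔭.map (algebraMap R O)

/-- The `p`-curvature is zero at all generic points of the fibre over `p`. -/
def Van (δ : Derivation R O O) (A : Matrix (Fin n) (Fin n) O) (p : ℕ) : Prop :=
  ∀ 𝔭 ∈ (Ideal.span {(p : R)}).minimalPrimes, PZero δ A p 𝔭

lemma pow_ne {S : Matrix (Fin n) (Fin n) O} {D : Type*} [CommRing D] [IsDomain D] (π : O →+* D)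
    {i : ℕ} (hi : π ((S.charpoly - X ^ n).coeff i) ≠ 0) (k : ℕ) : S.map π ^ k ≠ 0 := by
  intro h0
  apply hi
  have h1 : IsNilpotent (S.map π) := ⟨k, h0⟩
  have h2 := Matrix.isNilpotent_charpoly_sub_pow_of_isNilpotent h1
  have h3 := h2.eq_zero
  rw [Fintype.card_fin] at h3
  have h4 : (S.charpoly - X ^ n).map π = (S.map π).charpoly - X ^ n := by
    rw [Polynomial.map_sub, Polynomial.map_pow, map_X, ← Matrix.charpoly_map]
  rw [← coeff_map, h4, h3, coeff_zero]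

lemma exists_coeff {S : Matrix (Fin n) (Fin n) O} (hS : ¬ IsNilpotent S) :
    ∃ i, (S.charpoly - X ^ n).coeff i ≠ 0 := by
  by_contra h
  push Not at h
  apply hS
  have h1 : S.charpoly = X ^ n := by
    rw [← sub_eq_zero]
    ext i
    rw [h i, coeff_zero]
  refine ⟨n, ?_⟩
  have h2 := Matrix.aeval_self_charpoly S
  rw [h1, map_pow, aeval_X] at h2
  exact h2

theorem classes [IsDomain O] [CharZero O] [Algebra.FiniteType ℤ O] (δ : Derivation R O O)
    (hδ : Ideal.span (Set.range δ) = ⊤) (w : Fin n → ℕ) {W : ℕ} (hW : ∀ i, w i ≤ W) {a m : ℕ}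
    (ha : 1 ≤ a) (ham : a < m) {S : Matrix (Fin n) (Fin n) O} (hS : ¬ IsNilpotent S) :
    ∃ N₀ : ℕ, ∀ A : Matrix (Fin n) (Fin n) O[X], Sym m a w A S →
      Cls2 (fun p q => Van δ (A.map (eval (q : O))) p) a m W N₀ := by
  classical
  have hm : 0 < m := by omega
  obtain ⟨i₀, hi₀⟩ := exists_coeff hS
  obtain ⟨N₀, hN₀⟩ := Pool.Agent.W432.PC.exists_closed_point O hi₀
  refine ⟨N₀, fun A hA p hp hlt T hT => ?_⟩
  obtain ⟨𝔫, hmax, hpn, hcn⟩ := hN₀ p hp hlt
  have hprime : 𝔫.IsPrime := hmax.isPrime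
  have hpF : Fact p.Prime := ⟨hp⟩
  have hchar : CharP (O ⧸ 𝔫) p := by
    have h1 : ((p : ℕ) : O ⧸ 𝔫) = 0 := by
      have := Ideal.Quotient.eq_zero_iff_mem.2 hpn
      rwa [map_natCast] at this
    exact (CharP.charP_iff_prime_eq_zero hp).2 h1
  let π := Ideal.Quotient.mk 𝔫
  have hπ : ∀ x, π x = 0 ↔ x ∈ 𝔫 := fun x => Ideal.Quotient.eq_zero_iff_mem
  -- the minimal prime
  have hle : Ideal.span {(p : R)} ≤ 𝔫.comap (algebraMap R O) := by
    rw [Ideal.span_singleton_le_iff_mem, Ideal.mem_comap, map_natCast]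
    exact hpn
  obtain ⟨𝔭, h𝔭, h𝔭le⟩ := Ideal.exists_minimalPrimes_le hle
  have hmap : 𝔭.map (algebraMap R O) ≤ 𝔫 := Ideal.map_le_iff_le_comap.2 h𝔭le
  rcases T.eq_empty_or_nonempty with hT0 | ⟨t₀, ht₀⟩
  · simp [hT0]
  have h1 : ∀ t ∈ T, ∃ q : ℤ, (q : ZMod p) = t ∧ PZero δ (A.map (eval (q : O))) p 𝔭 := by
    intro t ht
    obtain ⟨q, hq, h⟩ := hT t ht
    exact ⟨q, hq, h 𝔭 h𝔭⟩
  obtain ⟨q₀, -, c, hc, -⟩ := h1 t₀ ht₀
  -- a function with nonzero derivative
  obtain ⟨f₀, hf₀⟩ : ∃ f₀, δ f₀ ∉ 𝔫 := by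
    by_contra h
    push Not at h
    apply hmax.ne_top
    rw [eq_top_iff, ← hδ, Ideal.span_le]
    rintro _ ⟨f, rfl⟩
    exact h f
  obtain ⟨i, j, hij⟩ : ∃ i j, π ((S ^ p) i j) ≠ 0 := by
    by_contra h
    push Not at h
    refine pow_ne π ?_ p ?_ (S := S) (i := i₀)
    · rw [Ne, hπ]; exact hcn
    · have : S.map π ^ p = (S ^ p).map π := by
        have := (RingHom.mapMatrix (m := Fin n) π).map_pow S p
        exact this.symm
      rw [this]
      ext i j
      exact h i j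
  have hs := hA.seq hm ha δ p i j
  have hs1 := (hA.seq hm ha δ 1 i j).1
  let f : O[X] := seq δ A p i j - C c * seq δ A 1 i j
  have ef : X ^ w j * expand O m f = hat m w (seq δ A p) i j - C c * hat m w (seq δ A 1) i j := by
    simp only [f, hat]
    rw [map_sub, map_mul, expand_C]
    ring
  have hp2 := hp.two_le
  have hlt2 : a * 1 + w i < a * p + w i := by
    have : a * 1 < a * p := Nat.mul_lt_mul_of_pos_left (by omega) (by omega)
    omega
  have hdeg : (X ^ w j * expand O m f).natDegree ≤ a * p + w i := by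
    rw [ef]
    refine (natDegree_sub_le _ _).trans (max_le hs.1 ?_)
    exact (natDegree_C_mul_le _ _).trans (hs1.trans hlt2.le)
  have hcoef : π ((X ^ w j * expand O m f).coeff (a * p + w i)) ≠ 0 := by
    rw [ef, coeff_sub, coeff_C_mul, hs.2, coeff_eq_zero_of_natDegree_lt (lt_of_le_of_lt hs1 hlt2),
      mul_zero, sub_zero]
    exact hij
  refine (count_roots π f hm hdeg hcoef T ?_).trans (by have := hW i; omega)
  intro t ht
  obtain ⟨q, hq, c', hc', hv⟩ := h1 t ht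
  refine ⟨q, hq, ?_⟩
  have hcc : c' - c ∈ 𝔫 := by
    have h2 := 𝔫.sub_mem (hmap (hc f₀)) (hmap (hc' f₀))
    have h3 : (c' - c) * δ f₀ ∈ 𝔫 := by
      have e : (c' - c) * δ f₀ = (⇑δ)^[p] f₀ - c * δ f₀ - ((⇑δ)^[p] f₀ - c' * δ f₀) := by ring
      rw [e]; exact h2
    exact (hprime.mem_or_mem h3).resolve_right hf₀
  have hδq : δ (q : O) = 0 := δ.map_intCast q
  have h4 := hmap (hv (Pi.single j 1) i)
  have h5 := conn_iter δ A hδq 1 i j
  rw [Function.iterate_one] at h5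
  rw [conn_iter δ A hδq p i j, h5] at h4
  have h6 := 𝔫.add_mem h4 (𝔫.mul_mem_right (eval (q : O) (seq δ A 1 i j)) hcc)
  rw [hπ]
  have e : eval (q : O) f = eval (q : O) (seq δ A p i j) - c' * eval (q : O) (seq δ A 1 i j) +
      (c' - c) * eval (q : O) (seq δ A 1 i j) := by
    simp only [f, eval_sub, eval_mul, eval_C]
    ring
  rw [e]
  exact h6

end Pool.Agent.TH924.PG
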