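import Mathlib

set_option autoImplicit false

/-!
Iterates of a pencil `∇ + q Φ` with `Φ ^ e = 0`: the degree in `q` of the `N`-th iterate is at most
`(1 - 1 / e) N + O(1)`.
-/

namespace Pool.Agent.TH924.PG

open Finset

section pen

variable {V : Type*} [AddCommGroup V]

/-- The coefficient of `q ^ k` in `(∇ + q Φ) ^ N`. -/
def cf (nabla Φ : V →+ V) : ℕ → ℕ → (V →+ V)
  | 0, 0 => AddMonoidHom.id V
  | 0, _ + 1 => 0
  | N + 1, 0 => nabla.comp (cf nabla Φ N 0)
  | N + 1, k + 1 => nabla.comp (cf nabla Φ N (k + 1)) + Φ.comp (cf nabla Φ N k)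

lemma cf_succ_zero (nabla Φ : V →+ V) (N : ℕ) (v : V) :
    cf nabla Φ (N + 1) 0 v = nabla (cf nabla Φ N 0 v) := by rw [cf]; rfl

lemma cf_succ_succ (nabla Φ : V →+ V) (N k : ℕ) (v : V) :
    cf nabla Φ (N + 1) (k + 1) v = nabla (cf nabla Φ N (k + 1) v) + Φ (cf nabla Φ N k v) := by
  rw [cf]; rfl

lemma cf_lt (nabla Φ : V →+ V) {N k : ℕ} (h : N < k) (v : V) : cf nabla Φ N k v = 0 := by
  induction N generalizing k v with
  | zero =>
    obtain ⟨k, rfl⟩ : ∃ j, k = j + 1 := ⟨k - 1, by omega⟩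
    rw [cf]; rfl
  | succ N ih =>
    obtain ⟨k, rfl⟩ : ∃ j, k = j + 1 := ⟨k - 1, by omega⟩
    rw [cf_succ_succ, ih (by omega), ih (by omega), map_zero, map_zero, add_zero]

lemma cf_mem (nabla Φ : V →+ V) (E : Set V) (h0 : (0 : V) ∈ E) (hadd : ∀ a ∈ E, ∀ b ∈ E, a + b ∈ E)
    (h1 : ∀ v ∈ E, nabla v ∈ E) (h2 : ∀ v ∈ E, Φ v ∈ E) (N k : ℕ) {v : V} (hv : v ∈ E) :
    cf nabla Φ N k v ∈ E := by
  induction N generalizing k with
  | zero =>
    rcases k with - | k
    · rw [cf]; exact hv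
    · rw [cf]; exact h0
  | succ N ih =>
    rcases k with - | k
    · rw [cf_succ_zero]; exact h1 _ (ih 0)
    · rw [cf_succ_succ]; exact hadd _ (h1 _ (ih _)) _ (h2 _ (ih _))

lemma cf_image (nabla Φ : V →+ V) {e : ℕ} (he : 1 ≤ e) (hΦ : ∀ v, (⇑Φ)^[e] v = 0) (N k j : ℕ)
    (h : (e - 1) * N + j ≤ e * k) (v : V) : ∃ u, cf nabla Φ N k v = (⇑Φ)^[j] u := by
  induction N generalizing k j v with
  | zero =>
    rcases k with - | k
    · have : j = 0 := by omega
      subst this
      exact ⟨_, rfl⟩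
    · exact ⟨0, by rw [cf]; simp⟩
  | succ N ih =>
    rcases j with - | j
    · exact ⟨_, rfl⟩
    rcases k with - | k
    · exfalso; omega
    have e1 : (e - 1) * (N + 1) = (e - 1) * N + (e - 1) := by ring
    have e2 : e * (k + 1) = e * k + e := by ring
    obtain ⟨u, hu⟩ := ih (k + 1) (j + e) (by omega) v
    obtain ⟨u', hu'⟩ := ih k j (by omega) v
    refine ⟨u', ?_⟩
    rw [cf_succ_succ, hu, hu', Function.iterate_add_apply, hΦ, iterate_map_zero, map_zero, zero_add,
      Function.iterate_succ_apply']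

lemma cf_growth (nabla Φ : V →+ V) {e : ℕ} (he : 1 ≤ e) (hΦ : ∀ v, (⇑Φ)^[e] v = 0) {N k : ℕ}
    (h : (e - 1) * N + e ≤ e * k) (v : V) : cf nabla Φ N k v = 0 := by
  obtain ⟨u, hu⟩ := cf_image nabla Φ he hΦ N k e h v
  rw [hu, hΦ]

end pen

section lin

variable {R F V : Type*} [CommRing R] [Field F] [Algebra R F] [AddCommGroup V] [Module F V]

/-- The member `∇ + c Φ` of a pencil. -/
def member (nabla : V →+ V) (Φ : V →ₗ[F] V) (c : F) : V →+ V :=
  nabla + (c • Φ).toAddMonoidHom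

lemma member_apply (nabla : V →+ V) (Φ : V →ₗ[F] V) (c : F) (v : V) :
    member nabla Φ c v = nabla v + c • Φ v := rfl

lemma member_iterate (δ : Derivation R F F) (nabla : V →+ V)
    (hnabla : ∀ (f : F) (v : V), nabla (f • v) = δ f • v + f • nabla v) (Φ : V →ₗ[F] V)
    {t : F} (ht : δ t = 0) (N : ℕ) (v : V) :
    (member nabla Φ t)^[N] v = ∑ k ∈ range (N + 1), t ^ k • cf nabla Φ.toAddMonoidHom N k v := by
  have htk : ∀ k, δ (t ^ k) = 0 := fun k => by rw [Derivation.leibniz_pow, ht]; simp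
  induction N with
  | zero => simp [cf]
  | succ N ih =>
    rw [Function.iterate_succ_apply', ih, member_apply, map_sum, map_sum, Finset.smul_sum,
      sum_range_succ' _ (N + 1)]
    have h1 : ∑ k ∈ range (N + 1), nabla (t ^ k • cf nabla Φ.toAddMonoidHom N k v) =
        ∑ k ∈ range (N + 1), t ^ (k + 1) • nabla (cf nabla Φ.toAddMonoidHom N (k + 1) v) +
          nabla (cf nabla Φ.toAddMonoidHom N 0 v) := by
      have h2 : ∀ k, nabla (t ^ k • cf nabla Φ.toAddMonoidHom N k v) =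
          t ^ k • nabla (cf nabla Φ.toAddMonoidHom N k v) := fun k => by
        rw [hnabla, htk, zero_smul, zero_add]
      rw [sum_congr rfl fun k _ => h2 k]
      have h3 := sum_range_succ' (fun k => t ^ k • nabla (cf nabla Φ.toAddMonoidHom N k v)) (N + 1)
      rw [sum_range_succ, cf_lt nabla _ (Nat.lt_succ_self N), map_zero, smul_zero, add_zero,
        pow_zero, one_smul] at h3
      exact h3
    rw [h1, pow_zero, one_smul, cf_succ_zero, add_right_comm]
    congr 1
    rw [← sum_add_distrib]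
    refine sum_congr rfl fun k _ => ?_
    rw [cf_succ_succ, smul_add, map_smul, smul_smul, ← pow_succ']
    rfl

end lin

lemma coeff_zero_aux {G : Type*} [AddCommGroup G] {p : ℕ} [Fact p.Prime] [Module (ZMod p) G]
    (c : ℕ → G) {D : ℕ} (T : Finset (ZMod p)) (hD : D ≤ T.card)
    (hT : ∀ τ ∈ T, ∃ q : ℤ, (q : ZMod p) = τ ∧ ∑ k ∈ range D, q ^ k • c k = 0) {k : ℕ}
    (hk : k < D) : c k = 0 := by
  classical
  refine (Module.forall_dual_apply_eq_zero_iff (ZMod p) (c k)).1 fun f => ?_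
  by_contra hf
  let P : Polynomial (ZMod p) := ∑ k ∈ range D, Polynomial.monomial k (f (c k))
  have hcoef : P.coeff k = f (c k) := by
    simp only [P, Polynomial.finsetSum_coeff, Polynomial.coeff_monomial]
    rw [Finset.sum_ite_eq' (range D) k]
    simp [hk]
  have hP : P ≠ 0 := fun h => hf (by rw [← hcoef, h, Polynomial.coeff_zero])
  have hdeg : P.natDegree < D := by
    have h1 : P.natDegree ≤ D - 1 := by
      refine Polynomial.natDegree_sum_le_of_forall_le _ _ fun j hj => ?_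
      refine (Polynomial.natDegree_monomial_le _).trans ?_
      have := mem_range.1 hj
      omega
    omega
  apply hP
  refine Polynomial.eq_zero_of_natDegree_lt_card_of_eval_eq_zero' P T ?_ (by omega)
  intro τ hτ
  obtain ⟨q, hq, hs⟩ := hT τ hτ
  simp only [P, Polynomial.eval_finsetSum, Polynomial.eval_monomial]
  have h1 := congrArg f hs
  rw [map_sum, map_zero] at h1
  rw [← h1]
  refine sum_congr rfl fun j _ => ?_
  have h2 : (q ^ j) • c j = ((q ^ j : ℤ) : ZMod p) • c j :=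
    (Int.cast_smul_eq_zsmul (ZMod p) _ _).symm
  rw [h2, map_smul, smul_eq_mul, ← hq]
  push_cast
  ring

/-- A polynomial with coefficients in an abelian group of exponent `p` which has too many zeros. -/
lemma coeff_zero_of_roots {G : Type*} [AddCommGroup G] {p : ℕ} [Fact p.Prime]
    (hG : ∀ g : G, p • g = 0) (c : ℕ → G) {D : ℕ} (T : Finset (ZMod p)) (hD : D ≤ T.card)
    (hT : ∀ τ ∈ T, ∃ q : ℤ, (q : ZMod p) = τ ∧ ∑ k ∈ range D, q ^ k • c k = 0) {k : ℕ}
    (hk : k < D) : c k = 0 := by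
  let inst : Module (ZMod p) G := AddCommGroup.zmodModule hG
  exact coeff_zero_aux c T hD hT hk

end Pool.Agent.TH924.PG
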