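import Pool.Agent.TH924.PG.Alg

set_option autoImplicit false

/-!
Roots of unity as parameters.
-/

namespace Pool.Agent.TH924.PG

open Polynomial

lemma le_of_totient {N B : ℕ} (hN : N ≠ 0) (h : N.totient ≤ B) : N ≤ (2 * B + 1) ^ (2 * B + 1) := by
  have hq : ∀ q ∈ N.primeFactors, q ^ N.factorization q ≤ 2 * B := by
    intro q hq
    have hqp := Nat.prime_of_mem_primeFactors hq
    have hv : 0 < N.factorization q := hqp.factorization_pos_of_dvd hN (Nat.dvd_of_mem_primeFactors hq)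
    have h1 : (q ^ N.factorization q).totient ≤ B :=
      (Nat.le_of_dvd (Nat.totient_pos.2 (Nat.pos_of_ne_zero hN))
        (Nat.totient_dvd_of_dvd (Nat.ordProj_dvd N q))).trans h
    rw [Nat.totient_prime_pow hqp hv] at h1
    obtain ⟨v, hv'⟩ : ∃ v, N.factorization q = v + 1 := ⟨N.factorization q - 1, by omega⟩
    rw [hv'] at h1 ⊢
    rw [Nat.add_sub_cancel] at h1
    have h2 := hqp.two_le
    have h3 : q ≤ 2 * (q - 1) := by omega
    calc q ^ (v + 1) = q ^ v * q := pow_succ _ _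
      _ ≤ q ^ v * (2 * (q - 1)) := Nat.mul_le_mul_left _ h3
      _ = 2 * (q ^ v * (q - 1)) := by ring
      _ ≤ 2 * B := Nat.mul_le_mul_left _ h1
  have hsub : N.primeFactors ⊆ Finset.range (2 * B + 1) := by
    intro q hq'
    rw [Finset.mem_range]
    have hqp := Nat.prime_of_mem_primeFactors hq'
    have hv : 0 < N.factorization q := hqp.factorization_pos_of_dvd hN (Nat.dvd_of_mem_primeFactors hq')
    have h1 := hq q hq'
    have h2 : q ≤ q ^ N.factorization q := Nat.le_self_pow hv.ne' q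
    omega
  have hcard : N.primeFactors.card ≤ 2 * B + 1 := by
    have := Finset.card_le_card hsub
    rwa [Finset.card_range] at this
  calc N = ∏ q ∈ N.primeFactors, q ^ N.factorization q := (Nat.prod_factorization_pow_eq_self hN).symm
    _ ≤ ∏ _q ∈ N.primeFactors, (2 * B + 1) :=
        Finset.prod_le_prod' fun q hq' => (hq q hq').trans (by omega)
    _ = (2 * B + 1) ^ N.primeFactors.card := by rw [Finset.prod_const]
    _ ≤ (2 * B + 1) ^ (2 * B + 1) := Nat.pow_le_pow_right (by omega) hcard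

/-- If `m φ(N) ≤ a p + W` for all primes `p > N₂` that do not divide `N`, then `N` is bounded. -/
lemma bound_of_forall {a m : ℕ} (ham : a < m) (W N₂ : ℕ) :
    ∃ B : ℕ, ∀ N : ℕ, N ≠ 0 →
      (∀ p : ℕ, p.Prime → N₂ < p → ¬ p ∣ N → N.totient * m ≤ a * p + W) → N ≤ B := by
  let n₀ : ℕ := N₂ + W + 5
  let P : ℕ := 4 * n₀ + 4
  refine ⟨(2 * (a * P + W) + 1) ^ (2 * (a * P + W) + 1), fun N hN h => ?_⟩
  have hex : ∃ p, p.Prime ∧ N₂ < p ∧ ¬ p ∣ N := by
    obtain ⟨p, hp1, hp2⟩ := Nat.exists_infinite_primes (N + N₂ + 1)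
    exact ⟨p, hp2, by omega, fun hd => by
      have := Nat.le_of_dvd (Nat.pos_of_ne_zero hN) hd
      omega⟩
  classical
  obtain ⟨hp, hlt, hnd⟩ := Nat.find_spec hex
  have hmin := fun q (hq : q < Nat.find hex) => Nat.find_min hex hq
  obtain ⟨p, hpdef⟩ : ∃ p, p = Nat.find hex := ⟨_, rfl⟩
  rw [← hpdef] at hp hlt hnd hmin
  have hm0 : 0 < m := by omega
  have hpP : p ≤ P := by
    by_contra hgt
    rw [not_le] at hgt
    let k : ℕ := (p - 1) / 4
    have hk1 : n₀ ≤ k := by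
      show n₀ ≤ (p - 1) / 4
      rw [Nat.le_div_iff_mul_le (by norm_num)]
      omega
    have hk2 : 4 * k ≤ p - 1 := Nat.mul_div_le _ _
    have hk3 : p ≤ 4 * k + 4 := by
      have := Nat.lt_div_mul_add (a := p - 1) (b := 4) (by norm_num)
      show p ≤ 4 * ((p - 1) / 4) + 4
      omega
    obtain ⟨q₁, hq₁, hq₁a, hq₁b⟩ := Nat.exists_prime_lt_and_le_two_mul k (by omega)
    obtain ⟨q₂, hq₂, hq₂a, hq₂b⟩ := Nat.exists_prime_lt_and_le_two_mul (2 * k) (by omega)
    have hd₁ : q₁ ∣ N := by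
      by_contra hnd'
      exact hmin q₁ (by omega) ⟨hq₁, by omega, hnd'⟩
    have hd₂ : q₂ ∣ N := by
      by_contra hnd'
      exact hmin q₂ (by omega) ⟨hq₂, by omega, hnd'⟩
    have hne : q₁ ≠ q₂ := by omega
    have hcop : Nat.Coprime q₁ q₂ := (Nat.coprime_primes hq₁ hq₂).2 hne
    have hdvd : q₁ * q₂ ∣ N := hcop.mul_dvd_of_dvd_of_dvd hd₁ hd₂
    have h1 : (q₁ * q₂).totient ≤ N.totient :=
      Nat.le_of_dvd (Nat.totient_pos.2 (Nat.pos_of_ne_zero hN)) (Nat.totient_dvd_of_dvd hdvd)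
    rw [Nat.totient_mul hcop, Nat.totient_prime hq₁, Nat.totient_prime hq₂] at h1
    have h2 : k * (2 * k) ≤ (q₁ - 1) * (q₂ - 1) := Nat.mul_le_mul (by omega) (by omega)
    have h3 := h p hp hlt hnd
    have h4 : k * (2 * k) * m ≤ a * p + W := (Nat.mul_le_mul_right m (h2.trans h1)).trans h3
    have h5 : a * p + W ≤ m * (4 * k + 4) + W * m := by
      have e1 : a * p ≤ m * (4 * k + 4) := Nat.mul_le_mul ham.le hk3
      have e2 : W ≤ W * m := Nat.le_mul_of_pos_right W hm0
      omega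
    have h6 : k * (2 * k) * m ≤ (4 * k + 4 + W) * m := by
      calc k * (2 * k) * m ≤ m * (4 * k + 4) + W * m := h4.trans h5
        _ = (4 * k + 4 + W) * m := by ring
    have h7 : k * (2 * k) ≤ 4 * k + 4 + W := Nat.le_of_mul_le_mul_right h6 hm0
    have h8 : 5 ≤ k ∧ W ≤ k := by
      constructor <;> omega
    nlinarith [h8.1, h8.2]
  refine le_of_totient hN ?_
  have h3 := h p hp hlt hnd
  calc N.totient ≤ N.totient * m := Nat.le_mul_of_pos_right _ hm0
    _ ≤ a * p + W := h3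
    _ ≤ a * P + W := by
      have := Nat.mul_le_mul_left a hpP
      omega

end Pool.Agent.TH924.PG
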