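import Mathlib

set_option autoImplicit false

/-!
Growth of the iterates of a connection `δ + A(q)` in the parameter `q`, measured with weights.
-/

namespace Pool.Agent.TH924.PG

open Polynomial

section alg

variable {R O : Type*} [CommRing R] [CommRing O] [Algebra R O] {n : ℕ}

/-- The derivation on the coefficients. -/
noncomputable def dP (δ : Derivation R O O) (f : O[X]) : O[X] :=
  ∑ l ∈ f.support, monomial l (δ (f.coeff l))

lemma coeff_dP (δ : Derivation R O O) (f : O[X]) (l : ℕ) : (dP δ f).coeff l = δ (f.coeff l) := by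
  classical
  unfold dP
  rw [finsetSum_coeff]
  simp only [coeff_monomial]
  rw [Finset.sum_ite_eq']
  split_ifs with h
  · rfl
  · rw [notMem_support_iff.1 h, map_zero]

lemma eval_dP (δ : Derivation R O O) {q : O} (hq : δ q = 0) (f : O[X]) :
    eval q (dP δ f) = δ (eval q f) := by
  induction f using Polynomial.induction_on' with
  | add P Q hP hQ =>
    have h : dP δ (P + Q) = dP δ P + dP δ Q := by
      ext l
      simp [coeff_dP]
    rw [h, eval_add, eval_add, map_add, hP, hQ]
  | monomial k a =>
    have h : dP δ (monomial k a) = monomial k (δ a) := by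
      ext l
      rw [coeff_dP, coeff_monomial, coeff_monomial]
      split_ifs <;> simp
    rw [h, eval_monomial, eval_monomial, Derivation.leibniz, Derivation.leibniz_pow, hq]
    simp [mul_comm]

/-- The entry `T^{w_j} M_{ij}(T^m)`. -/
noncomputable def hat (m : ℕ) (w : Fin n → ℕ) (M : Matrix (Fin n) (Fin n) O[X]) (i j : Fin n) :
    O[X] := X ^ w j * expand O m (M i j)

/-- `M(T^m)` has weighted degree at most `κ` and leading part `S`. -/
def Sym (m κ : ℕ) (w : Fin n → ℕ) (M : Matrix (Fin n) (Fin n) O[X])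
    (S : Matrix (Fin n) (Fin n) O) : Prop :=
  ∀ i j, (hat m w M i j).natDegree ≤ κ + w i ∧ (hat m w M i j).coeff (κ + w i) = S i j

lemma Sym.mul {m κ κ' : ℕ} {w : Fin n → ℕ} {M M' : Matrix (Fin n) (Fin n) O[X]}
    {S S' : Matrix (Fin n) (Fin n) O} (h : Sym m κ w M S) (h' : Sym m κ' w M' S') :
    Sym m (κ + κ') w (M * M') (S * S') := by
  intro i j
  have e : hat m w (M * M') i j = ∑ k, X ^ w j * expand O m (M i k * M' k j) := by
    unfold hat
    rw [Matrix.mul_apply, map_sum, Finset.mul_sum]
  have h1 : ∀ k, X ^ w k * (X ^ w j * expand O m (M i k * M' k j)) =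
      hat m w M i k * hat m w M' k j := by
    intro k
    unfold hat
    rw [map_mul]; ring
  have h2 : ∀ k, (hat m w M i k * hat m w M' k j).natDegree ≤ (κ + w i) + (κ' + w k) := fun k =>
    (natDegree_mul_le).trans (add_le_add (h i k).1 (h' k j).1)
  rw [e]
  constructor
  · refine natDegree_sum_le_of_forall_le _ _ fun k _ => ?_
    rw [natDegree_le_iff_coeff_eq_zero]
    intro N hN
    rw [← coeff_X_pow_mul _ (w k) N, h1]
    apply coeff_eq_zero_of_natDegree_lt
    have := h2 k
    omega
  · rw [finsetSum_coeff, Matrix.mul_apply]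
    refine Finset.sum_congr rfl fun k _ => ?_
    rw [← coeff_X_pow_mul _ (w k), h1]
    have h3 : κ + κ' + w i + w k = (κ + w i) + (κ' + w k) := by ring
    rw [h3, coeff_mul_add_eq_of_natDegree_le (h i k).1 (h' k j).1, (h i k).2, (h' k j).2]

lemma Sym.add {m κ : ℕ} {w : Fin n → ℕ} {M M' : Matrix (Fin n) (Fin n) O[X]}
    {S S' : Matrix (Fin n) (Fin n) O} (h : Sym m κ w M S) (h' : Sym m κ w M' S') :
    Sym m κ w (M + M') (S + S') := by
  intro i j
  have e : hat m w (M + M') i j = hat m w M i j + hat m w M' i j := by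
    unfold hat
    rw [Matrix.add_apply, map_add, mul_add]
  rw [e, coeff_add, (h i j).2, (h' i j).2]
  exact ⟨natDegree_add_le_of_le (h i j).1 (h' i j).1 |>.trans (by simp), rfl⟩

lemma coeff_hat_dP {m : ℕ} (hm : 0 < m) (δ : Derivation R O O) (u : ℕ) (f : O[X]) (l : ℕ) :
    (X ^ u * expand O m (dP δ f)).coeff l = δ ((X ^ u * expand O m f).coeff l) := by
  rw [coeff_X_pow_mul', coeff_X_pow_mul', coeff_expand hm, coeff_expand hm]
  split_ifs <;> simp [coeff_dP]

lemma Sym.der {m κ κ' : ℕ} (hm : 0 < m) (hκ : κ < κ') {w : Fin n → ℕ}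
    {M : Matrix (Fin n) (Fin n) O[X]} {S : Matrix (Fin n) (Fin n) O} (h : Sym m κ w M S)
    (δ : Derivation R O O) : Sym m κ' w (Matrix.of fun i j => dP δ (M i j)) 0 := by
  intro i j
  have h1 : ∀ l, κ + w i < l →
      (hat m w (Matrix.of fun i j => dP δ (M i j)) i j).coeff l = 0 := by
    intro l hl
    unfold hat
    rw [Matrix.of_apply, coeff_hat_dP hm]
    have h2 := (h i j).1
    rw [natDegree_le_iff_coeff_eq_zero] at h2
    have h3 := h2 l hl
    unfold hat at h3
    rw [h3, map_zero]
  constructor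
  · rw [natDegree_le_iff_coeff_eq_zero]
    intro l hl
    exact h1 l (by omega)
  · rw [h1 _ (by omega)]
    rfl

lemma Sym.one (m : ℕ) (w : Fin n → ℕ) : Sym m 0 w (1 : Matrix (Fin n) (Fin n) O[X]) 1 := by
  intro i j
  unfold hat
  by_cases hij : i = j
  · subst hij
    rw [Matrix.one_apply_eq, map_one, mul_one, Matrix.one_apply_eq, zero_add]
    exact ⟨natDegree_X_pow_le _, coeff_X_pow_self _⟩
  · rw [Matrix.one_apply_ne hij, map_zero, mul_zero, Matrix.one_apply_ne hij]
    simp

/-- The matrices of the iterates of `δ + A`. -/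
noncomputable def seq (δ : Derivation R O O) (A : Matrix (Fin n) (Fin n) O[X]) :
    ℕ → Matrix (Fin n) (Fin n) O[X]
  | 0 => 1
  | k + 1 => (Matrix.of fun i j => dP δ (seq δ A k i j)) + A * seq δ A k

lemma Sym.seq {m a : ℕ} (hm : 0 < m) (ha : 0 < a) {w : Fin n → ℕ}
    {A : Matrix (Fin n) (Fin n) O[X]} {S : Matrix (Fin n) (Fin n) O} (h : Sym m a w A S)
    (δ : Derivation R O O) (k : ℕ) : Sym m (a * k) w (seq δ A k) (S ^ k) := by
  induction k with
  | zero => exact Sym.one m w
  | succ k ih =>
    have h1 := ih.der hm (show a * k < a * (k + 1) by rw [mul_add]; omega) δ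
    have h2 := h.mul ih
    rw [show a + a * k = a * (k + 1) by ring, ← pow_succ'] at h2
    have h3 := h1.add h2
    rwa [zero_add] at h3

/-- The connection `δ + A` on `O ^ n`. -/
def conn (δ : Derivation R O O) (A : Matrix (Fin n) (Fin n) O) (v : Fin n → O) : Fin n → O :=
  fun i => δ (v i) + A.mulVec v i

lemma conn_iter (δ : Derivation R O O) (A : Matrix (Fin n) (Fin n) O[X]) {q : O} (hq : δ q = 0)
    (k : ℕ) (i j : Fin n) :
    (conn δ (A.map (eval q)))^[k] (Pi.single j 1) i = eval q (seq δ A k i j) := by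
  induction k generalizing i with
  | zero =>
    simp only [Function.iterate_zero, id_eq, seq]
    by_cases hij : i = j
    · subst hij; simp
    · simp [hij]
  | succ k ih =>
    rw [Function.iterate_succ_apply']
    show δ _ + (A.map (eval q)).mulVec _ i = _
    rw [ih, seq, Matrix.add_apply, Matrix.of_apply, eval_add, eval_dP δ hq]
    congr 1
    rw [Matrix.mulVec, dotProduct, Matrix.mul_apply, eval_finsetSum]
    refine Finset.sum_congr rfl fun h _ => ?_
    rw [ih, eval_mul]
    rfl

end alg

lemma count_roots {O D : Type*} [CommRing O] [CommRing D] [IsDomain D] {p : ℕ} [Fact p.Prime]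
    [CharP D p] (π : O →+* D) (f : O[X]) {m u N : ℕ} (hm : 0 < m)
    (hN : (X ^ u * expand O m f).natDegree ≤ N) (hc : π ((X ^ u * expand O m f).coeff N) ≠ 0)
    (T : Finset (ZMod p)) (hT : ∀ t ∈ T, ∃ q : ℤ, (q : ZMod p) = t ∧ π (eval (q : O) f) = 0) :
    T.card * m ≤ N := by
  classical
  have e : (X ^ u * expand O m f).map π = X ^ u * expand D m (f.map π) := by
    rw [Polynomial.map_mul, Polynomial.map_pow, map_X, map_expand]
  have hg : f.map π ≠ 0 := by
    intro h0
    apply hc
    rw [← coeff_map, e, h0, map_zero, mul_zero, coeff_zero]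
  have hdeg : (f.map π).natDegree * m + u ≤ N := by
    have h1 : (X ^ u * expand D m (f.map π)).natDegree ≤ N := by
      rw [← e]
      exact natDegree_map_le.trans hN
    rw [natDegree_mul (pow_ne_zero _ X_ne_zero) ((expand_ne_zero hm).2 hg), natDegree_expand,
      natDegree_X_pow] at h1
    omega
  let φ : ZMod p →+* D := ZMod.castHom (dvd_refl p) D
  have hφ : Function.Injective φ := φ.injective
  have hcard : T.card ≤ (f.map π).natDegree := by
    have h1 : (T.image φ).val ⊆ (f.map π).roots := by
      intro x hx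
      rw [Finset.mem_val, Finset.mem_image] at hx
      obtain ⟨t, ht, rfl⟩ := hx
      obtain ⟨q, hq, h0⟩ := hT t ht
      rw [mem_roots hg, IsRoot.def]
      have h2 : φ t = π (q : O) := by
        rw [← hq, map_intCast, map_intCast]
      rw [h2, eval_map_apply]
      exact h0
    have h2 := card_le_degree_of_subset_roots h1
    rwa [Finset.card_image_of_injective _ hφ] at h2
  calc T.card * m ≤ (f.map π).natDegree * m := Nat.mul_le_mul_right m hcard
    _ ≤ N := by omega

end Pool.Agent.TH924.PG
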